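import Pool.Agent.Helper12.LN6.D1
import Pool.Agent.Helper32.LN6.ChiF

/-!
LN6, leaf D2: `SF2` (a largest `s 0`-class is not a largest `s 2`-class).
-/

open scoped Classical
open Finset

namespace LN6

namespace WSys

variable {k : ℕ} {Γ F : Type} [Group Γ] [MulAction Γ F] [Fintype F] {W : WSys k Γ F} {b : ℝ}

/-- an element which lies in largest classes of two disjoint arcs: the classes agree. -/
theorem Ax.cl_eq_of_B2 (A : W.Ax b) {h h' : Γ} (hk : W.Arc2 h h') {x : F} (hx : x ∈ W.B h)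
    (hx' : x ∈ W.B h') {z : F} (hE : W.E h' x z) : W.E h x z := by
  by_contra hz
  have h1 := A.F3_arc2 hk hx hE.toR hz
  rcases hE with rfl | hE
  · exact hz (E_refl _ _)
  · rw [h1] at hE
    exact lt_irrefl _ hE.2

theorem Ax.cl_iff_of_B2 (A : W.Ax b) {h h' : Γ} (hk : W.Arc2 h h') {x : F} (hx : x ∈ W.B h)
    (hx' : x ∈ W.B h') {z : F} : W.E h x z ↔ W.E h' x z :=
  ⟨A.cl_eq_of_B2 (hk.symm (by have := A.k5; omega)) hx' hx, A.cl_eq_of_B2 hk hx hx'⟩

theorem SF2_of (A : W.Ax b) (hb : 0 < b) : W.SF2 := by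
  have k5 := A.k5
  have arc : ∀ i j, (i + 2 ≤ j ∨ j + 2 ≤ i) → i + 1 < k → j + 1 < k → W.Arc2 (W.s i) (W.s j) := by
    intro i j hij hi hj
    rcases hij with h | h
    · exact W.arc2_lt i j h hj
    · exact W.arc2_gt j i h hi
  have cm : ∀ i j, (i + 2 ≤ j ∨ j + 2 ≤ i) → i + 1 < k → j + 1 < k → W.s i * W.s j = W.s j * W.s i := by
    intro i j hij hi hj
    rcases hij with h | h
    · exact W.comm i j h hj
    · exact (W.comm j i h hi).symm
  -- `s c` and `s i` (far), `s j` far from `c`, `s i s j` conjugates `s i` to `s j`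
  have step : ∀ c i j, (c + 2 ≤ i ∨ i + 2 ≤ c) → (c + 2 ≤ j ∨ j + 2 ≤ c) → c + 1 < k → i + 1 < k → j + 1 < k →
      W.s j = (W.s i * W.s j) * W.s i * (W.s i * W.s j)⁻¹ → ∀ x, x ∈ W.B (W.s c) → x ∈ W.B (W.s i) →
      x ∈ W.B (W.s j) := by
    intro c i j hci hcj hc hi hj hconj x hxc hxi
    -- `y = s i s j x ∈ B (s j)`
    have hy : (W.s i * W.s j) • x ∈ W.B (W.s j) := by
      have := (B_conj (W := W) (W.s i * W.s j) (W.s i) x).2 hxi
      rwa [← hconj] at this
    -- `s j x ~ s c x`, `s i s j x ~ s i s c x ~ s c s c x`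
    have h1 := A.STr_gen hcj hc hj hxc
    have h2 := (E_smul (W := W) (cm i c (by omega) hi hc) (x := W.s c • x) (y := W.s j • x)).2 h1
    have hcx : W.s c • x ∈ W.B (W.s c) := (B_smul rfl x).2 hxc
    have h3 := A.STr_gen hci hc hi hcx
    have h4 : W.E (W.s c) (W.s c • W.s c • x) ((W.s i * W.s j) • x) := by
      rw [mul_smul]
      exact A.E_trans (W.arc_s c hc) h3 h2
    have hccx : W.s c • W.s c • x ∈ W.B (W.s c) := (B_smul rfl _).2 hcx
    have hyc := A.B_of_E (W.arc_s c hc) h4 hccx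
    have h5 := (A.cl_iff_of_B2 (arc c j hcj hc hj) hyc hy).1 h4.symm
    have h6 := A.B_of_E (W.arc_s j hj) h5 hy
    have h7 := (B_smul (W := W) (cm c j hcj hc hj) (W.s c • x)).1 h6
    exact (B_smul (W := W) (cm c j hcj hc hj) x).1 h7
  intro x hx0 hx2
  -- all elements of `B (s 0) ∩ B (s 2)` are in `B (s i)` for all `i`
  have all : ∀ x, x ∈ W.B (W.s 0) → x ∈ W.B (W.s 2) → ∀ i, i + 1 < k → x ∈ W.B (W.s i) := by
    intro x hx0 hx2
    have h2 : ∀ i, 2 ≤ i → i + 1 < k → x ∈ W.B (W.s i) := by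
      intro i hi
      induction i, hi using Nat.le_induction with
      | base => exact fun _ => hx2
      | succ i hi ih =>
        intro hk
        exact step 0 i (i + 1) (by omega) (by omega) (by omega) (by omega) hk (W.s_succ_conj i (by omega)) x
          hx0 (ih (by omega))
    have h3 := h2 3 (by omega) (by omega)
    have h1 := step 3 0 1 (by omega) (by omega) (by omega) (by omega) (by omega) (W.s_succ_conj 0 (by omega)) x
      h3 hx0
    intro i hi
    rcases Nat.lt_or_ge i 2 with h | h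
    · interval_cases i
      · exact hx0
      · exact h1
    · exact h2 i h hi
  -- stability
  have hst : ∀ j, j + 1 < k → ∀ x, x ∈ W.B (W.s 0) → x ∈ W.B (W.s 2) →
      W.s j • x ∈ W.B (W.s 0) ∧ W.s j • x ∈ W.B (W.s 2) := by
    intro j hj x hx0 hx2
    have hx3 := all x hx0 hx2 3 (by omega)
    have h00 : W.s 0 • x ∈ W.B (W.s 0) := (B_smul rfl x).2 hx0
    have h02 : W.s 0 • x ∈ W.B (W.s 2) := (B_smul (cm 0 2 (by omega) (by omega) (by omega)) x).2 hx2
    have key : W.E (W.s 0) (W.s 0 • x) (W.s j • x) := by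
      rcases Nat.lt_or_ge j 2 with h | h
      · interval_cases j
        · exact E_refl _ _
        · have e1 := A.STr_gen (i := 3) (j := 1) (by omega) (by omega) (by omega) hx3
          have e3 : W.s 3 • x ∈ W.B (W.s 3) := (B_smul rfl x).2 hx3
          have e0 : W.s 3 • x ∈ W.B (W.s 0) := (B_smul (cm 3 0 (by omega) (by omega) (by omega)) x).2 hx0
          have e2 := (A.cl_iff_of_B2 (arc 0 3 (by omega) (by omega) (by omega)) e0 e3).2 e1
          exact A.E_trans W.arc_s0 (A.STr_gen (i := 0) (j := 3) (by omega) (by omega) (by omega) hx0) e2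
      · exact A.STr_gen (by omega) (by omega) hj hx0
    refine ⟨A.B_of_E W.arc_s0 key h00, ?_⟩
    have e2 := (A.cl_iff_of_B2 (arc 0 2 (by omega) (by omega) (by omega)) h00 h02).1 key
    exact A.B_of_E (W.arc_s 2 (by omega)) e2 h02
  -- the set of pairs
  set O : Finset (F × F) := univ.filter fun p => p.1 ∈ W.B (W.s 0) ∧ p.1 ∈ W.B (W.s 2) ∧ W.R p.1 p.2 ∧
    ¬ W.E (W.s 0) p.1 p.2 with hO
  have hGood : W.Good O := by
    intro p hp
    obtain ⟨-, -, h1, h2⟩ := (mem_filter.1 hp).2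
    exact ⟨h1, fun e => h2 (Or.inl e)⟩
  have hstab : ∀ j, j + 1 < k → W.s j ∈ stab Γ O := by
    intro j hj
    apply mem_stab_of
    intro p hp
    obtain ⟨h0, h2, hR, hE⟩ := (mem_filter.1 hp).2
    have hs := hst j hj p.1 h0 h2
    refine mem_filter.2 ⟨mem_univ _, hs.1, hs.2, W.R_smul _ hR, ?_⟩
    intro hE'
    have hE'' : W.E (W.s 0) (W.s j • p.1) (W.s j • p.2) := hE'
    by_cases hj1 : j = 1
    · subst hj1
      have e3 := all _ hs.1 hs.2 3 (by omega)
      have e4 := (A.cl_iff_of_B2 (arc 0 3 (by omega) (by omega) (by omega)) hs.1 e3).1 hE''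
      have e5 := (E_smul (cm 1 3 (by omega) (by omega) (by omega))).1 e4
      have e6 := all _ h0 h2 3 (by omega)
      exact hE ((A.cl_iff_of_B2 (arc 0 3 (by omega) (by omega) (by omega)) h0 e6).2 e5)
    · apply hE
      refine (E_smul ?_).1 hE''
      rcases Nat.eq_zero_or_pos j with h | h
      · rw [h]
      · exact cm j 0 (by omega) hj (by omega)
  have hB : W.Bm k ≤ stab Γ O := by
    unfold Bm
    rw [Subgroup.closure_le]
    rintro g ⟨i, hi, rfl⟩
    exact hstab i hi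
  have h1 := chi_T_Bn hGood le_rfl (by omega) hB k (by omega) le_rfl
  have h2 : W.chi O (W.s 0) = 0 := by
    refine sum_eq_zero ?_
    intro p hp
    obtain ⟨-, -, hR, hE⟩ := (mem_filter.1 hp).2
    exact A.v_zero_of_not_E W.arc_s0 hR hE
  rw [h2, mul_zero, chi_T_k A hGood] at h1
  have hne : 0 < O.card := by
    obtain ⟨z, hR, hE⟩ := A.exists_not_E W.arc_s0 x
    exact card_pos.2 ⟨(x, z), mem_filter.2 ⟨mem_univ _, hx0, hx2, hR, hE⟩⟩
  have hne' : (0 : ℝ) < O.card := by exact_mod_cast hne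
  rcases mul_eq_zero.1 h1 with h | h
  · exact absurd h hne'.ne'
  · exact absurd h hb.ne'

end WSys

end LN6
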